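import Pool.Agent.N848.SK.Stm
import Pool.Agent.N701.AW.LAS

/-!
# SK/LU: the law of `EU` (port of `t_LAS`)
-/

set_option autoImplicit false
set_option linter.unusedVariables false

open scoped Classical

namespace Pool.Agent.N848.AW.LU265

open Finset
open Pool.Agent.R426.QK
open Pool.Agent.R426
open LAS
open Pool.Agent.N848.SK (S_LU EU)

theorem t_LU : S_LU := by
  intro hX hL ε hε
  obtain ⟨V₀, hV⟩ := hL (2 * ε / 3) (by positivity)
  refine ⟨V₀ + 4, ?_⟩
  intro U J _ _ _ tU gU hU tJ gJ hJ A B hcard h0 hg hh hA hnd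
  have st : ∑ q : U ⊕ J, Sum.elim tU tJ q = 0 := by
    rw [Fintype.sum_sum_type]; exact h0
  have sg : ∑ q : U ⊕ J, Sum.elim gU gJ q = 1 := by
    rw [Fintype.sum_sum_type]; exact hg
  have sh : ∑ q : U ⊕ J, Sum.elim hU hJ q = 1 := by
    rw [Fintype.sum_sum_type]; exact hh
  -- the hypotheses of XOR
  have hyp : ∀ α : prs J → ZMod 2, Hyp (univ : Finset (U ⊕ J)) (MM tU tJ A B (ext tJ α))
      (Sum.elim tU tJ) (Sum.elim gU gJ) (Sum.elim hU hJ) := by
    intro α
    refine ⟨?_, st, sg, sh⟩
    intro p _ q _ hpq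
    rcases p with u | k <;> rcases q with v | l
    · simp only [MM, Sum.elim_inl]
      exact hA u v (fun h => hpq (by rw [h]))
    · simp only [MM, Sum.elim_inl, Sum.elim_inr]
      have := z2 (B u l)
      linear_combination this
    · simp only [MM, Sum.elim_inl, Sum.elim_inr]
      have := z2 (B v k)
      linear_combination this
    · simp only [MM, Sum.elim_inr]
      exact LAS_ext_add tJ α k l (fun h => hpq (by rw [h]))
  -- the first system
  have HA : HypG (fun _ : U => 1) (NN (MM tU tJ A B 0) 0 (Sum.elim gU gJ) (Sum.elim tU tJ))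
      tJ gJ tJ := by
    refine hypG_NN tU tJ A B hA h0 _ _ _ _ _ ?_ ?_ ?_ ?_ ?_
    · intro p; rw [st]; simp
    · intro q; rw [sg]; simp
    · intro k l _
      simp only [Sum.elim_inr]
      ring
    · intro w hw
      obtain ⟨l, hl⟩ := hnd w (∑ u, w u * gU u) 0 0 (Or.inl (by
        by_contra hcon
        push Not at hcon
        exact hw (funext hcon)))
      refine ⟨l, ?_⟩
      convert hl using 1
      simp only [Sum.elim_inl, Sum.elim_inr, mul_add, sum_add_distrib, sum_mul, zero_mul, add_zero,
        mul_assoc]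
    · intro c hc
      obtain ⟨l, hl⟩ := hnd c (∑ u, c u * tU u) (∑ u, c u * tU u) 0 (Or.inl (by
        by_contra hcon
        push Not at hcon
        exact hc (funext hcon)))
      refine ⟨l, ?_⟩
      convert hl using 1
      simp only [Sum.elim_inl, Sum.elim_inr, add_mul, sum_add_distrib, sum_mul, zero_mul, add_zero]
      congr 1
      · congr 1
        · exact sum_congr rfl fun u _ => by ring
        · exact sum_congr rfl fun u _ => by ring
      · exact sum_congr rfl fun u _ => by ring
  have HB : HypG (fun _ : U => 1)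
      (NN (MM tU tJ A B 0) (Sum.elim tU tJ) (Sum.elim tU tJ) (Sum.elim hU hJ)) tJ tJ hJ := by
    refine hypG_NN tU tJ A B hA h0 _ _ _ _ _ ?_ ?_ ?_ ?_ ?_
    · intro p; rw [sh, mul_one]; exact z2 _
    · intro q; rw [st]; simp
    · intro k l _
      simp only [Sum.elim_inr]
      ring
    · intro w hw
      obtain ⟨l, hl⟩ := hnd w 0 0 (∑ u, w u * tU u) (Or.inl (by
        by_contra hcon
        push Not at hcon
        exact hw (funext hcon)))
      refine ⟨l, ?_⟩
      convert hl using 1
      simp only [Sum.elim_inl, Sum.elim_inr, mul_add, sum_add_distrib, sum_mul, zero_mul, add_zero,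
        mul_assoc]
    · intro c hc
      obtain ⟨l, hl⟩ := hnd c (∑ u, c u * tU u + ∑ u, c u * hU u) 0 0 (Or.inl (by
        by_contra hcon
        push Not at hcon
        exact hc (funext hcon)))
      refine ⟨l, ?_⟩
      convert hl using 1
      simp only [Sum.elim_inl, Sum.elim_inr, add_mul, sum_add_distrib, sum_mul, zero_mul, add_zero,
        ← add_assoc]
      congr 1
      · congr 1
        · exact sum_congr rfl fun u _ => by ring
        · exact sum_congr rfl fun u _ => by ring
      · exact sum_congr rfl fun u _ => by ring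
  have HC := hypG_NC tU tJ B _ gJ hJ gU hU h0 hg hh HA (fun u l => by
    rw [NN_inlr]; rfl) (fun k u => by rw [NN_inrl]; rfl) hnd
  -- translation of the systems
  have eA : ∀ α : prs J → ZMod 2, GdG (fun _ : U => 1)
      (NN (MM tU tJ A B 0) 0 (Sum.elim gU gJ) (Sum.elim tU tJ)) (ext tJ α) ↔
      GA (univ : Finset (U ⊕ J)) (MM tU tJ A B (ext tJ α)) (Sum.elim tU tJ) (Sum.elim gU gJ) := by
    intro α
    unfold GdG GA
    refine forall_congr' fun x => ?_
    rw [cst_iff]
    simp only [rowG_NN, Pi.zero_apply, zero_mul, add_zero, mem_univ, true_imp_iff]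
  have eB : ∀ α : prs J → ZMod 2, GdG (fun _ : U => 1)
      (NN (MM tU tJ A B 0) (Sum.elim tU tJ) (Sum.elim tU tJ) (Sum.elim hU hJ)) (ext tJ α) ↔
      GB (univ : Finset (U ⊕ J)) (MM tU tJ A B (ext tJ α)) (Sum.elim tU tJ) (Sum.elim hU hJ) := by
    intro α
    unfold GdG GB
    refine forall_congr' fun x => ?_
    rw [cst_iff]
    simp only [rowG_NN, mem_univ, true_imp_iff]
  have eC : ∀ α : prs J → ZMod 2, GdG on3 (NC (NN (MM tU tJ A B 0) 0 (Sum.elim gU gJ)
      (Sum.elim tU tJ)) (Sum.elim tU tJ) (Sum.elim tU tJ + Sum.elim gU gJ + Sum.elim hU hJ))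
      (ext tJ α) ↔
      GC (univ : Finset (U ⊕ J)) (MM tU tJ A B (ext tJ α)) (Sum.elim tU tJ) (Sum.elim gU gJ)
        (Sum.elim hU hJ) := by
    intro α
    constructor
    · intro H x y hx hxy
      have h := H (Sum.elim (fun o => o.elim y fun u => x (Sum.inl u)) fun j => x (Sum.inr j)) ?_
      · have hio : ∀ p, (Sum.elim (fun o : Option U => o.elim y fun u => x (Sum.inl u))
            fun j => x (Sum.inr j)) (io p) = x p := by
          intro p; cases p <;> rfl
        rcases h with h | h
        · refine ⟨⟨0, fun p _ => ?_⟩, ?_⟩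
          · rw [← hio p, h]; rfl
          · exact congrFun h (Sum.inl none)
        · refine ⟨⟨1, fun p _ => ?_⟩, ?_⟩
          · rw [← hio p, h, onev3]
          · exact congrFun h (Sum.inl none)
      · have hio : (fun p : U ⊕ J => (Sum.elim (fun o : Option U => o.elim y fun u => x (Sum.inl u))
            fun j => x (Sum.inr j)) (io p)) = x := by
          funext p; cases p <;> rfl
        have hall : ∀ p : U ⊕ J, rowG (NC (NN (MM tU tJ A B 0) 0 (Sum.elim gU gJ)
            (Sum.elim tU tJ)) (Sum.elim tU tJ)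
            (Sum.elim tU tJ + Sum.elim gU gJ + Sum.elim hU hJ)) (ext tJ α)
            (Sum.elim (fun o : Option U => o.elim y fun u => x (Sum.inl u))
            fun j => x (Sum.inr j)) (io p) = 0 := by
          intro p
          rw [rowG_NC, hio, rowG_NN, hx]
          have := hxy p (mem_univ p)
          simpa using this
        intro k
        rcases k with (_ | u) | j
        · rw [rowG_NC_n, hio, hx]
        · exact hall (Sum.inl u)
        · exact hall (Sum.inr j)
    · intro H x hx
      have h1 : dt univ (Sum.elim tU tJ) (fun p => x (io p)) = 0 := by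
        have := hx (Sum.inl none)
        rwa [rowG_NC_n] at this
      obtain ⟨⟨c, hc⟩, hy⟩ := H (fun p => x (io p)) (x (Sum.inl none)) h1 (by
        intro p _
        have h2 := hx (io p)
        rw [rowG_NC, rowG_NN, h1] at h2
        simpa using h2)
      have hc2 : c = 0 ∨ c = 1 := zc c
      rcases hc2 with rfl | rfl
      · left
        funext k
        rcases k with (_ | u) | j
        · exact hy
        · exact hc (Sum.inl u) (mem_univ _)
        · exact hc (Sum.inr j) (mem_univ _)
      · right
        funext k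
        rcases k with (_ | u) | j
        · exact hy
        · exact hc (Sum.inl u) (mem_univ _)
        · exact hc (Sum.inr j) (mem_univ _)
  -- the three laws
  have lA := hV U J (fun _ => 1) _ tJ gJ tJ (by omega) HA
  have lB := hV U J (fun _ => 1) _ tJ tJ hJ (by omega) HB
  have lC := hV (Option U) J on3 _ tJ gJ tJ (by rw [Fintype.card_option]; omega) HC
  simp only [eA] at lA
  simp only [eB] at lB
  simp only [eC] at lC
  -- counting
  set PA : (prs J → ZMod 2) → Prop := fun α =>
    GA (univ : Finset (U ⊕ J)) (MM tU tJ A B (ext tJ α)) (Sum.elim tU tJ) (Sum.elim gU gJ) with hPA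
  set PB : (prs J → ZMod 2) → Prop := fun α =>
    GB (univ : Finset (U ⊕ J)) (MM tU tJ A B (ext tJ α)) (Sum.elim tU tJ) (Sum.elim hU hJ) with hPB
  have hcount : (univ.filter fun α => PA α).card + (univ.filter fun α => PB α).card +
        (univ.filter fun α => GC (univ : Finset (U ⊕ J)) (MM tU tJ A B (ext tJ α))
          (Sum.elim tU tJ) (Sum.elim gU gJ) (Sum.elim hU hJ)).card =
      2 * (univ.filter fun α => PA α ∨ PB α).card := by
    simp only [card_filter]
    rw [← sum_add_distrib, mul_sum, ← sum_add_distrib]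
    refine sum_congr rfl fun α _ => ?_
    have hx := hX _ _ _ _ _ _ (hyp α)
    by_cases h1 : PA α <;> by_cases h2 : PB α
    · have h3 : ¬ GC (univ : Finset (U ⊕ J)) (MM tU tJ A B (ext tJ α))
          (Sum.elim tU tJ) (Sum.elim gU gJ) (Sum.elim hU hJ) := by
        rw [hx]; simp only [not_not]; exact ⟨fun _ => h2, fun _ => h1⟩
      simp [h1, h2, h3]
    · have h3 : GC (univ : Finset (U ⊕ J)) (MM tU tJ A B (ext tJ α))
          (Sum.elim tU tJ) (Sum.elim gU gJ) (Sum.elim hU hJ) := by
        rw [hx]; intro h; exact h2 (h.1 h1)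
      simp [h1, h2, h3]
    · have h3 : GC (univ : Finset (U ⊕ J)) (MM tU tJ A B (ext tJ α))
          (Sum.elim tU tJ) (Sum.elim gU gJ) (Sum.elim hU hJ) := by
        rw [hx]; intro h; exact h1 (h.2 h2)
      simp [h1, h2, h3]
    · have h3 : ¬ GC (univ : Finset (U ⊕ J)) (MM tU tJ A B (ext tJ α))
          (Sum.elim tU tJ) (Sum.elim gU gJ) (Sum.elim hU hJ) := by
        rw [hx]; simp only [not_not]; exact ⟨fun h => absurd h h1, fun h => absurd h h2⟩
      simp [h1, h2, h3]
  have hcR : ((univ.filter fun α => PA α).card : ℝ) + ((univ.filter fun α => PB α).card : ℝ) +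
        ((univ.filter fun α => GC (univ : Finset (U ⊕ J)) (MM tU tJ A B (ext tJ α))
          (Sum.elim tU tJ) (Sum.elim gU gJ) (Sum.elim hU hJ)).card : ℝ) =
      2 * ((univ.filter fun α => PA α ∨ PB α).card : ℝ) := by
    exact_mod_cast hcount
  set T : ℝ := 2 ^ (prs J).card with hT
  have hT0 : 0 < T := by positivity
  have e1 : ((univ.filter fun α => PA α ∨ PB α).card : ℝ) / T =
      (((univ.filter fun α => PA α).card : ℝ) / T + ((univ.filter fun α => PB α).card : ℝ) / T +
      ((univ.filter fun α => GC (univ : Finset (U ⊕ J)) (MM tU tJ A B (ext tJ α))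
          (Sum.elim tU tJ) (Sum.elim gU gJ) (Sum.elim hU hJ)).card : ℝ) / T) / 2 := by
    field_simp
    linarith
  have hEU : (univ.filter fun α : prs J → ZMod 2 =>
      EU (U ⊕ J) univ (MM tU tJ A B (ext tJ α)) (Sum.elim tU tJ) (Sum.elim gU gJ)
        (Sum.elim hU hJ)) = univ.filter fun α => PA α ∨ PB α :=
    Finset.filter_congr fun α _ => Iff.rfl
  rw [hEU, e1]
  rw [abs_le] at lA lB lC ⊢
  constructor <;> linarith [lA.1, lA.2, lB.1, lB.2, lC.1, lC.2]

end Pool.Agent.N848.AW.LU265
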